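import Pool.Agent.ZPK.StmtsL

/-!
# ZPK, row GLA: the norm of `φ Log (w - 1)`
-/

set_option autoImplicit false

namespace Pool.Agent.ZPK.H95

open Polynomial Pool.Agent.ZPT Pool.Agent.ZP3

theorem gla (zkl : ZP3.ZKLStmt) (thb : ZP3.THBStmt) (lgb : LgbStmt) : GlaStmt := by
  intro p hp hp7 K _ _ _ hK Log hL k w hw
  obtain ⟨-, ht0, ht1, -, -⟩ := thb p hp (by omega)
  obtain ⟨⟨-, hpow⟩, hdiv, hro, hsmall, -, -, -⟩ := lgb p hp (by omega) K hK Log hL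
  obtain ⟨x, hx, hxn⟩ := zkl p hp (by omega) K hK (k + 1) w (by omega) hw
  rw [Nat.add_sub_cancel] at hxn
  have hp0 : (p : K) ≠ 0 := Nat.cast_ne_zero.2 hp.ne_zero
  have hx0 : x ≠ 0 := by
    obtain ⟨M, hM, hxM⟩ := hx
    rintro rfl
    rw [zero_pow (by omega)] at hxM
    exact zero_ne_one hxM
  have hw1 : w - 1 ≠ 0 := by
    intro h
    have h1 : w = 1 := sub_eq_zero.1 h
    rw [h1] at hw
    have h2 := hw.unique IsPrimitiveRoot.one
    have h3 : 1 < p ^ (k + 1) := Nat.one_lt_pow (Nat.succ_ne_zero k) hp.one_lt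
    omega
  have hz0 : (w - 1) ^ (p ^ k * (p - 1)) ≠ 0 := pow_ne_zero _ hw1
  have h1 : ‖Log (1 + ((w - 1) ^ (p ^ k * (p - 1)) / (p : K) * x - 1))‖ =
      ‖(w - 1) ^ (p ^ k * (p - 1)) / (p : K) * x - 1‖ := by
    apply hsmall
    rw [hxn, pow_two]
    exact mul_lt_of_lt_one_left ht0 ht1
  rw [hxn, add_sub_cancel, hL.mul _ _ (div_ne_zero hz0 hp0) hx0, hro x hx, add_zero,
    hdiv _ _ hz0 hp0, hL.pp, sub_zero, ← zpow_natCast, hpow _ _ hw1] at h1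
  rw [Int.cast_natCast] at h1
  exact h1

end Pool.Agent.ZPK.H95
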