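import Mathlib
import Pool.Agent.ZPK.StmtsR

set_option autoImplicit false

/-! Row LRX of the squad ZPK: elements of the torsion class with small logarithm. -/

namespace Pool.Agent.ZPK.H95

open Polynomial Pool.Agent.ZPT Pool.Agent.ZP3 Pool.Agent.ZPK

theorem one_le_norm_prod {K : Type} [NormedField K] (m : Multiset K)
    (h : ∀ z ∈ m, 1 ≤ ‖z‖) : 1 ≤ ‖m.prod‖ := by
  induction m using Multiset.induction_on with
  | empty => simp
  | cons a m ih =>
    rw [Multiset.prod_cons, norm_mul]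
    have h1 := h a (Multiset.mem_cons_self a m)
    have h2 := ih (fun z hz => h z (Multiset.mem_cons_of_mem hz))
    nlinarith

theorem near_root {K : Type} [NormedField K] [IsAlgClosed K] (x : K) (M : ℕ) (hM : 1 ≤ M)
    (h : ‖x ^ M - 1‖ < 1) : ∃ ζ : K, ζ ^ M = 1 ∧ ‖x - ζ‖ < 1 := by
  by_contra hcon
  push Not at hcon
  have hmon : (X ^ M - C (1 : K)).Monic := monic_X_pow_sub_C (1 : K) (by omega)
  have hs : (X ^ M - C (1 : K)).Splits := IsAlgClosed.splits _
  have e1 := hs.eq_prod_roots_of_monic hmon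
  have e2 := congrArg (eval x) e1
  rw [eval_multiset_prod, Multiset.map_map] at e2
  simp only [Function.comp_def, eval_sub, eval_pow, eval_X, eval_C] at e2
  have h2 : 1 ≤ ‖((X ^ M - C (1 : K)).roots.map (fun a => x - a)).prod‖ := by
    apply one_le_norm_prod
    intro z hz
    rw [Multiset.mem_map] at hz
    obtain ⟨a, ha, rfl⟩ := hz
    apply hcon a
    have h3 := (mem_roots'.1 ha).2
    rw [IsRoot.def, eval_sub, eval_pow, eval_X, eval_C, sub_eq_zero] at h3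
    exact h3
  rw [← e2] at h2
  linarith

theorem lrx (lgb : LgbStmt) (lgr : LgrStmt) : LrxStmt := by
  intro p hp hp5 K _ _ _ _ _ hE Log hL x hx hsmall
  obtain ⟨M, hM, hxM⟩ := hx
  obtain ⟨ζ, hζ, hd⟩ := near_root x M hM hxM
  obtain ⟨-, -, l3, -⟩ := lgb p hp hp5 K hE Log hL
  have hM0 : M ≠ 0 := by omega
  have hζn : ‖ζ‖ = 1 := by
    have h1 := congrArg norm hζ
    rw [norm_pow, norm_one] at h1
    exact (pow_eq_one_iff_of_nonneg (norm_nonneg ζ) hM0).1 h1
  have hζ0 : ζ ≠ 0 := by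
    intro h0
    rw [h0, norm_zero] at hζn
    exact zero_ne_one hζn
  have hx0 : x ≠ 0 := by
    rintro rfl
    rw [zero_pow hM0, zero_sub, norm_neg, norm_one] at hxM
    exact lt_irrefl _ hxM
  have hR : Ro ζ := ⟨M, hM, hζ⟩
  have hy : ‖x / ζ - 1‖ < 1 := by
    have e : x / ζ - 1 = (x - ζ) / ζ := by
      field_simp
    rw [e, norm_div, hζn, div_one]
    exact hd
  have e1 : 1 + (x / ζ - 1) = x / ζ := by ring
  have hLx : Log (1 + (x / ζ - 1)) = Log x := by
    rw [e1]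
    have h1 := hL.mul ζ (x / ζ) hζ0 (div_ne_zero hx0 hζ0)
    rw [mul_div_cancel₀ _ hζ0, l3 ζ hR, zero_add] at h1
    exact h1.symm
  obtain ⟨ξ, d, hξ, he, hn⟩ := lgr p hp hp5 K hE Log hL (x / ζ - 1) hy (by rw [hLx]; exact hsmall)
  have hRξ : Ro ξ := by
    rcases hξ with rfl | ⟨k, hk⟩
    · exact ⟨1, le_rfl, one_pow 1⟩
    · exact ⟨p ^ (k + 1), Nat.one_le_iff_ne_zero.2 (pow_ne_zero _ hp.ne_zero), hk.pow_eq_one⟩
  refine ⟨ζ * ξ, d, ?_, ?_, ?_⟩
  · obtain ⟨M', hM', hξ'⟩ := hRξ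
    refine ⟨M * M', Nat.one_le_iff_ne_zero.2 (Nat.mul_ne_zero (by omega) (by omega)), ?_⟩
    rw [mul_pow, pow_mul, hζ, one_pow, one_mul, mul_comm M M', pow_mul, hξ', one_pow]
  · rw [e1] at he
    rw [mul_assoc, ← he, mul_div_cancel₀ _ hζ0]
  · rw [hn, hLx]

end Pool.Agent.ZPK.H95
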