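import Pool.Agent.ZPK.StmtsD

/-!
# ZPK, row PND: the minimal polynomial of an irrational algebraic integer does not split modulo
many primes
-/

set_option autoImplicit false

namespace Pool.Agent.ZPK.H95

open Polynomial Pool.Agent.ZPT Pool.Agent.ZP3

theorem pnd (nsp : NspStmt) (spt : SptStmt) : PndStmt := by
  intro β hβ hq
  have hβQ : IsIntegral ℚ β := hβ.tower_top
  let F : IntermediateField ℚ Qb := IntermediateField.adjoin ℚ {β}
  have hfd : FiniteDimensional ℚ F := IntermediateField.adjoin.finiteDimensional hβQ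
  have hNF : NumberField F := ⟨⟩
  let g : F := IntermediateField.AdjoinSimple.gen ℚ β
  have hg : algebraMap F Qb g = β := IntermediateField.AdjoinSimple.algebraMap_gen ℚ β
  have hgi : IsIntegral ℤ g := by
    rw [← isIntegral_algebraMap_iff (algebraMap F Qb).injective, hg]
    exact hβ
  let θ : NumberField.RingOfIntegers F := ⟨g, hgi⟩
  have hθ : algebraMap (NumberField.RingOfIntegers F) F θ = g := rfl
  have hmin : minpoly ℤ θ = minpoly ℤ β := by
    have h1 := minpoly.algebraMap_eq (A := ℤ) (B := NumberField.RingOfIntegers F) (B' := F)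
      (FaithfulSMul.algebraMap_injective _ _) θ
    have h2 := minpoly.algebraMap_eq (A := ℤ) (B := F) (B' := Qb) (algebraMap F Qb).injective g
    rw [hg] at h2
    rw [← h1, hθ, ← h2]
  have hdeg : (minpoly ℤ β).natDegree = Module.finrank ℚ F := by
    rw [IntermediateField.adjoin.finrank hβQ, minpoly.isIntegrallyClosed_eq_field_fractions' ℚ hβ,
      natDegree_map_eq_of_injective (algebraMap ℤ ℚ).injective_int]
  have h2 : 2 ≤ Module.finrank ℚ F := by
    rw [IntermediateField.adjoin.finrank hβQ]
    have h3 := minpoly.natDegree_pos hβQ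
    have h4 : (minpoly ℚ β).natDegree ≠ 1 := by
      intro h5
      obtain ⟨r, hr⟩ := minpoly.natDegree_eq_one_iff.1 h5
      exact hq r (by rw [← hr]; rfl)
    omega
  obtain ⟨p₀, hp₀⟩ := spt F θ (by rw [hmin, hdeg])
  refine nsp F h2 {p | ¬ (Polynomial.map (Int.castRingHom (ZMod p)) (minpoly ℤ β)).Splits} p₀ ?_
  intro p hp hpp hpS
  refine hp₀ p hp hpp ?_
  rw [hmin]
  exact not_not.1 hpS

end Pool.Agent.ZPK.H95
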