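import Pool.Agent.ZPK.StmtsX

/-!
# ZPK, row XRB: the Raynaud polynomial of a Moebius relation does not vanish
-/

set_option autoImplicit false

namespace Pool.Agent.ZPK.H95

open Polynomial Pool.Agent.ZPT Pool.Agent.ZP3

theorem chain_rule {k : Type} [Field k] (Y : Fin 4 → k[X]) (Q : MvPolynomial (Fin 4) ℤ) :
    derivative (MvPolynomial.aeval Y Q) =
      ∑ i, MvPolynomial.aeval Y (MvPolynomial.pderiv i Q) * derivative (Y i) := by
  induction Q using MvPolynomial.induction_on with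
  | C a =>
    rw [MvPolynomial.aeval_C, eq_intCast, derivative_intCast]
    symm
    refine Finset.sum_eq_zero fun i _ => ?_
    rw [MvPolynomial.pderiv_C, map_zero, zero_mul]
  | add q r hq hr =>
    rw [map_add, derivative_add, hq, hr, ← Finset.sum_add_distrib]
    refine Finset.sum_congr rfl fun i _ => ?_
    rw [map_add, map_add, add_mul]
  | mul_X q j hq =>
    rw [map_mul, MvPolynomial.aeval_X, derivative_mul, hq]
    have h1 : ∀ i, MvPolynomial.aeval Y (MvPolynomial.pderiv i (q * MvPolynomial.X j)) *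
        derivative (Y i) = MvPolynomial.aeval Y (MvPolynomial.pderiv i q) * derivative (Y i) * Y j +
        (if i = j then MvPolynomial.aeval Y q * derivative (Y j) else 0) := by
      intro i
      rw [MvPolynomial.pderiv_mul, map_add, map_mul, map_mul, MvPolynomial.aeval_X]
      by_cases h : i = j
      · subst h
        rw [MvPolynomial.pderiv_X_self, map_one, if_pos rfl]
        ring
      · rw [MvPolynomial.pderiv_X_of_ne (fun h' => h h'.symm), map_zero, if_neg h]
        ring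
    rw [Finset.sum_congr rfl fun i _ => h1 i, Finset.sum_add_distrib, Finset.sum_ite_eq',
      if_pos (Finset.mem_univ j), Finset.sum_mul]

theorem pderiv_Q {p : ℕ} (hp : p.Prime) (Q : MvPolynomial (Fin 4) ℤ)
    (hQ : MvPolynomial.C (p : ℤ) * Q = (∑ i, MvPolynomial.X i) ^ p - ∑ i, MvPolynomial.X i ^ p)
    (i : Fin 4) : MvPolynomial.pderiv i Q =
      (∑ j, MvPolynomial.X j) ^ (p - 1) - MvPolynomial.X i ^ (p - 1) := by
  have h0 : (MvPolynomial.C (p : ℤ) : MvPolynomial (Fin 4) ℤ) ≠ 0 := by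
    rw [Ne, MvPolynomial.C_eq_zero]
    exact_mod_cast hp.ne_zero
  apply mul_left_cancel₀ h0
  have h1 := congrArg (MvPolynomial.pderiv i) hQ
  have h2 : MvPolynomial.pderiv i (∑ j, MvPolynomial.X j : MvPolynomial (Fin 4) ℤ) = 1 := by
    rw [map_sum, Finset.sum_eq_single i]
    · exact MvPolynomial.pderiv_X_self i
    · intro j _ hj
      exact MvPolynomial.pderiv_X_of_ne hj
    · intro h
      exact absurd (Finset.mem_univ i) h
  have h3 : MvPolynomial.pderiv i (∑ j, MvPolynomial.X j ^ p : MvPolynomial (Fin 4) ℤ) =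
      (p : MvPolynomial (Fin 4) ℤ) * MvPolynomial.X i ^ (p - 1) := by
    rw [map_sum, Finset.sum_eq_single i]
    · rw [MvPolynomial.pderiv_pow, MvPolynomial.pderiv_X_self, mul_one]
    · intro j _ hj
      rw [MvPolynomial.pderiv_pow, MvPolynomial.pderiv_X_of_ne hj, mul_zero]
    · intro h
      exact absurd (Finset.mem_univ i) h
  rw [MvPolynomial.pderiv_C_mul, map_sub, MvPolynomial.pderiv_pow, h2, h3, mul_one] at h1
  rw [h1]
  simp only [map_natCast]
  ring

theorem xrb : XrbStmt := by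
  intro p hp hp3 k _ _ G B Q hQ hB0 h01 h02 h03 h23 l Y hl hY0 hY1 hY2 hY3 S hS
  have hfact : Fact p.Prime := ⟨hp⟩
  have hpp : ∀ f : k[X], f ^ p = f ^ (p - 1) * f := by
    intro f
    rw [← pow_succ, Nat.sub_add_cancel hp.one_le]
  have hXp : derivative (X ^ p : k[X]) = 0 := by
    rw [derivative_X_pow, CharP.cast_eq_zero, C_0, zero_mul]
  have hXp0 : (X ^ p : k[X]) ≠ 0 := pow_ne_zero _ X_ne_zero
  have h1 : derivative (MvPolynomial.aeval Y Q) = 0 := by
    have h2 := congrArg derivative hS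
    rw [derivative_add, derivative_comp, hXp, zero_mul, zero_add, derivative_mul, hXp, zero_mul,
      zero_add, derivative_zero] at h2
    exact (mul_eq_zero.1 h2).resolve_left hXp0
  have hl0 := hl 0
  have hl1 := hl 1
  have hl2 := hl 2
  have hl3 := hl 3
  have d0 : derivative (l 0) = C (B 0) := by rw [hl0]; simp
  have d1 : derivative (l 1) = C (B 1) := by rw [hl1]; simp
  have d2 : derivative (l 2) = C (B 2) := by rw [hl2]; simp
  have d3 : derivative (l 3) = C (B 3) := by rw [hl3]; simp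
  have s01 : Y 0 + Y 1 = C (G 2 * B 3 - G 3 * B 2) * (l 0 * l 1) := by
    rw [hY0, hY1, hl0, hl1, hl2, hl3]
    simp only [C_sub, C_mul]
    ring
  have s23 : Y 2 + Y 3 = -(C (G 2 * B 3 - G 3 * B 2) * (l 0 * l 1)) := by
    rw [hY2, hY3, hl0, hl1, hl2, hl3]
    simp only [C_sub, C_mul]
    ring
  have s02 : Y 0 + Y 2 = -(C (G 0 * B 1 - G 1 * B 0) * (l 2 * l 3)) := by
    rw [hY0, hY2, hl0, hl1, hl2, hl3]
    simp only [C_sub, C_mul]
    ring
  have s13 : Y 1 + Y 3 = C (G 0 * B 1 - G 1 * B 0) * (l 2 * l 3) := by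
    rw [hY1, hY3, hl0, hl1, hl2, hl3]
    simp only [C_sub, C_mul]
    ring
  have hsum : ∑ i, Y i = 0 := by
    rw [Fin.sum_univ_four]
    linear_combination s01 + s23
  have hp1 : p - 1 ≠ 0 := by omega
  have h2 : ∑ i, Y i ^ (p - 1) * derivative (Y i) = 0 := by
    rw [chain_rule] at h1
    have h3 : ∀ i, MvPolynomial.aeval Y (MvPolynomial.pderiv i Q) * derivative (Y i) =
        -(Y i ^ (p - 1) * derivative (Y i)) := by
      intro i
      rw [pderiv_Q hp Q hQ i, map_sub, map_pow, map_pow, map_sum]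
      simp only [MvPolynomial.aeval_X]
      rw [hsum, zero_pow hp1]
      ring
    rw [Finset.sum_congr rfl fun i _ => h3 i, Finset.sum_neg_distrib, neg_eq_zero] at h1
    exact h1
  rw [Fin.sum_univ_four] at h2
  have e0 : derivative (Y 0) = C (G 1 * B 3 - G 3 * B 1) * (C (B 0) * l 2 + l 0 * C (B 2)) := by
    rw [hY0, mul_assoc, derivative_C_mul, derivative_mul, d0, d2]
  have e1 : derivative (Y 1) = C (G 2 * B 1 - G 1 * B 2) * (C (B 0) * l 3 + l 0 * C (B 3)) := by
    rw [hY1, mul_assoc, derivative_C_mul, derivative_mul, d0, d3]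
  have e2 : derivative (Y 2) = C (G 3 * B 0 - G 0 * B 3) * (C (B 1) * l 2 + l 1 * C (B 2)) := by
    rw [hY2, mul_assoc, derivative_C_mul, derivative_mul, d1, d2]
  have e3 : derivative (Y 3) = C (G 0 * B 2 - G 2 * B 0) * (C (B 1) * l 3 + l 1 * C (B 3)) := by
    rw [hY3, mul_assoc, derivative_C_mul, derivative_mul, d1, d3]
  -- multiply by the product of the forms
  have h4 : C (B 0) * l 1 * l 2 * l 3 * (Y 0 ^ p + Y 1 ^ p) +
      C (B 1) * l 0 * l 2 * l 3 * (Y 2 ^ p + Y 3 ^ p) +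
      C (B 2) * l 0 * l 1 * l 3 * (Y 0 ^ p + Y 2 ^ p) +
      C (B 3) * l 0 * l 1 * l 2 * (Y 1 ^ p + Y 3 ^ p) = 0 := by
    rw [e0, e1, e2, e3] at h2
    rw [hpp (Y 0), hpp (Y 1), hpp (Y 2), hpp (Y 3)]
    have g0 : Y 0 ^ (p - 1) * Y 0 = Y 0 ^ (p - 1) * (C (G 1 * B 3 - G 3 * B 1) * l 0 * l 2) := by
      rw [← hY0]
    have g1 : Y 1 ^ (p - 1) * Y 1 = Y 1 ^ (p - 1) * (C (G 2 * B 1 - G 1 * B 2) * l 0 * l 3) := by
      rw [← hY1]
    have g2 : Y 2 ^ (p - 1) * Y 2 = Y 2 ^ (p - 1) * (C (G 3 * B 0 - G 0 * B 3) * l 1 * l 2) := by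
      rw [← hY2]
    have g3 : Y 3 ^ (p - 1) * Y 3 = Y 3 ^ (p - 1) * (C (G 0 * B 2 - G 2 * B 0) * l 1 * l 3) := by
      rw [← hY3]
    rw [g0, g1, g2, g3]
    linear_combination (l 0 * l 1 * l 2 * l 3) * h2
  have hneg : ∀ f : k[X], (-f) ^ p = -f ^ p := fun f =>
    (hp.odd_of_ne_two (by omega)).neg_pow f
  rw [← add_pow_char, ← add_pow_char, ← add_pow_char, ← add_pow_char, s01, s23, s02, s13, hneg,
    hneg] at h4
  have f1 : C (B 0) * l 1 - C (B 1) * l 0 = -C (G 0 * B 1 - G 1 * B 0) := by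
    rw [hl0, hl1]
    simp only [C_sub, C_mul]
    ring
  have f2 : C (B 3) * l 2 - C (B 2) * l 3 = C (G 2 * B 3 - G 3 * B 2) := by
    rw [hl2, hl3]
    simp only [C_sub, C_mul]
    ring
  set α := C (G 2 * B 3 - G 3 * B 2) with hα
  set β := C (G 0 * B 1 - G 1 * B 0) with hβ
  have hl0n : l 0 ≠ 0 := by
    intro h
    rw [h] at d0
    rw [derivative_zero] at d0
    exact hB0 (C_eq_zero.1 d0.symm)
  have hl1n : l 1 ≠ 0 := by
    intro h
    have g1 : B 1 = 0 := by
      rw [h, derivative_zero] at d1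
      exact C_eq_zero.1 d1.symm
    have g2 : G 1 = 0 := by
      rw [h, g1, C_0, zero_mul, add_zero] at hl1
      exact C_eq_zero.1 hl1.symm
    exact h01 (by rw [g1, g2]; ring)
  have h5 : (l 0 * l 1) * (-(β * α ^ p * (l 0 * l 1) ^ (p - 1) * (l 2 * l 3)) +
      α * β ^ p * (l 2 * l 3) ^ p) = 0 := by
    rw [mul_pow α (l 0 * l 1), mul_pow β (l 2 * l 3), hpp (l 0 * l 1)] at h4
    linear_combination h4 - (α ^ p * ((l 0 * l 1) ^ (p - 1) * (l 0 * l 1)) * (l 2 * l 3)) * f1 -
      (β ^ p * (l 2 * l 3) ^ p * (l 0 * l 1)) * f2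
  have h6 := (mul_eq_zero.1 h5).resolve_left (mul_ne_zero hl0n hl1n)
  have h7 := congrArg (eval (-G 0 / B 0)) h6
  have v0 : eval (-G 0 / B 0) (l 0) = 0 := by
    rw [hl0]
    simp only [eval_add, eval_C, eval_mul, eval_X]
    field_simp
    ring
  have v2 : eval (-G 0 / B 0) (l 2) ≠ 0 := by
    intro h
    rw [hl2] at h
    simp only [eval_add, eval_C, eval_mul, eval_X] at h
    apply h02
    field_simp at h
    linear_combination -h
  have v3 : eval (-G 0 / B 0) (l 3) ≠ 0 := by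
    intro h
    rw [hl3] at h
    simp only [eval_add, eval_C, eval_mul, eval_X] at h
    apply h03
    field_simp at h
    linear_combination -h
  simp only [eval_add, eval_neg, eval_mul, eval_pow, eval_zero, v0, zero_mul, zero_pow hp1,
    mul_zero, neg_zero, zero_add, hα, hβ, eval_C] at h7
  rcases mul_eq_zero.1 h7 with h8 | h8
  · rcases mul_eq_zero.1 h8 with h9 | h9
    · exact h23 h9
    · exact h01 (pow_eq_zero_iff hp.ne_zero |>.1 h9)
  · rcases mul_eq_zero.1 (pow_eq_zero_iff hp.ne_zero |>.1 h8) with h9 | h9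
    · exact v2 h9
    · exact v3 h9

end Pool.Agent.ZPK.H95
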